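import Pool.Agent.LPC.Stmts

/-!
# Squad LPC, row KDR: the derivative of the explicit value
-/

set_option autoImplicit false

noncomputable section

open MeasureTheory Filter Topology
open scoped RealInnerProductSpace

namespace Pool.Agent.LPC.H6

/-- `C(k,j) ∏_(j ≤ i < k) (n+2i)` -/
def cc (n k j : ℕ) : ℕ := k.choose j * ∏ i ∈ Finset.Ico j k, (n + 2 * i)

theorem tT_eq (n k j : ℕ) : tT n k j = (-1) ^ j * (cc n k j : ℤ) := rfl

theorem cc_zero (n k : ℕ) : cc n (k + 1) 0 = (n + 2 * k) * cc n k 0 := by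
  unfold cc
  rw [Nat.choose_zero_right, Nat.choose_zero_right, Finset.prod_Ico_succ_top (Nat.zero_le k)]
  ring

theorem cc_top (n k : ℕ) : cc n k (k + 1) = 0 := by
  unfold cc
  rw [Nat.choose_succ_self, zero_mul]

theorem cc_succ (n k m : ℕ) :
    cc n (k + 1) (m + 1) = (n + 2 * k + 2 * (m + 1)) * cc n k (m + 1) + cc n k m := by
  rcases Nat.lt_trichotomy m k with h | h | h
  · unfold cc
    rw [Finset.prod_Ico_succ_top (Nat.succ_le_of_lt h), Finset.prod_eq_prod_Ico_succ_bot h,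
      Nat.choose_succ_succ' k m]
    have h1 := Nat.choose_succ_right_eq k m
    obtain ⟨d, hd⟩ : ∃ d, k = m + d := ⟨k - m, by omega⟩
    have h2 : k - m = d := by omega
    rw [h2] at h1
    have h3 : (n + 2 * k) * (k.choose m + k.choose (m + 1)) =
        (n + 2 * k + 2 * (m + 1)) * k.choose (m + 1) + (n + 2 * m) * k.choose m := by
      have h4 : 2 * k = 2 * m + 2 * d := by omega
      calc (n + 2 * k) * (k.choose m + k.choose (m + 1))
          = (n + 2 * k) * k.choose (m + 1) + (n + 2 * m) * k.choose m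
              + 2 * (k.choose m * d) := by rw [h4]; ring
        _ = (n + 2 * k) * k.choose (m + 1) + (n + 2 * m) * k.choose m
              + 2 * (k.choose (m + 1) * (m + 1)) := by rw [h1]
        _ = _ := by ring
    calc (k.choose m + k.choose (m + 1)) *
          ((∏ i ∈ Finset.Ico (m + 1) k, (n + 2 * i)) * (n + 2 * k))
        = (∏ i ∈ Finset.Ico (m + 1) k, (n + 2 * i)) *
            ((n + 2 * k) * (k.choose m + k.choose (m + 1))) := by ring
      _ = (∏ i ∈ Finset.Ico (m + 1) k, (n + 2 * i)) *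
            ((n + 2 * k + 2 * (m + 1)) * k.choose (m + 1) + (n + 2 * m) * k.choose m) := by
          rw [h3]
      _ = _ := by ring
  · rw [h, cc_top, mul_zero, zero_add]
    unfold cc
    rw [Nat.choose_self, Nat.choose_self, Finset.Ico_self, Finset.Ico_self]
  · unfold cc
    rw [Nat.choose_eq_zero_of_lt (by omega : k + 1 < m + 1),
      Nat.choose_eq_zero_of_lt (by omega : k < m + 1), Nat.choose_eq_zero_of_lt h]
    simp

theorem tT_zero (n k : ℕ) : (tT n (k + 1) 0 : ℝ) = (n + 2 * k) * (tT n k 0 : ℝ) := by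
  rw [tT_eq, tT_eq, cc_zero]
  push_cast
  ring

theorem tT_top (n k : ℕ) : (tT n k (k + 1) : ℝ) = 0 := by
  rw [tT_eq, cc_top]
  push_cast
  ring

theorem tT_succ (n k m : ℕ) : (tT n (k + 1) (m + 1) : ℝ) =
    (n + 2 * k + 2 * (m + 1)) * (tT n k (m + 1) : ℝ) - (tT n k m : ℝ) := by
  rw [tT_eq, tT_eq, tT_eq, cc_succ]
  push_cast
  ring

/-- the sum in `KK` -/
def S (n k : ℕ) (r a : ℝ) : ℝ :=
  ∑ j ∈ Finset.range (k + 1), (tT n k j : ℝ) * r ^ (2 * j) / a ^ (k + j)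

/-- the derivative of the sum in `KK` -/
def S' (n k : ℕ) (r a : ℝ) : ℝ :=
  ∑ j ∈ Finset.range (k + 1), (tT n k j : ℝ) * r ^ (2 * j) * (-((k + j : ℕ) : ℝ) / a ^ (k + j + 1))

theorem der_inv (N : ℕ) (a : ℝ) (ha : 0 < a) :
    HasDerivAt (fun t : ℝ => 1 / t ^ N) (-(N : ℝ) / a ^ (N + 1)) a := by
  cases N with
  | zero =>
    have h : (fun t : ℝ => 1 / t ^ 0) = fun _ => (1 : ℝ) := by
      funext t
      rw [pow_zero, div_one]
    rw [h]
    have h2 : (-((0 : ℕ) : ℝ) / a ^ (0 + 1)) = 0 := by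
      rw [Nat.cast_zero, neg_zero, zero_div]
    rw [h2]
    exact hasDerivAt_const a 1
  | succ M =>
    have h := (hasDerivAt_pow (M + 1) a).inv (pow_ne_zero _ ha.ne')
    have h2 : (fun t : ℝ => 1 / t ^ (M + 1)) = fun t : ℝ => (t ^ (M + 1))⁻¹ := by
      funext t
      rw [one_div]
    rw [h2]
    have h3 : -(((M + 1 : ℕ) : ℝ)) / a ^ (M + 1 + 1)
        = -(((M + 1 : ℕ) : ℝ) * a ^ (M + 1 - 1)) / (a ^ (M + 1)) ^ 2 := by
      rw [Nat.add_sub_cancel]
      have := ha.ne'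
      field_simp
      ring
    rw [h3]
    exact h

theorem der_S (n k : ℕ) (r a : ℝ) (ha : 0 < a) : HasDerivAt (S n k r) (S' n k r a) a := by
  have h : S n k r = fun t => ∑ j ∈ Finset.range (k + 1),
      (tT n k j : ℝ) * r ^ (2 * j) * (1 / t ^ (k + j)) := by
    funext t
    unfold S
    refine Finset.sum_congr rfl fun j _ => ?_
    rw [mul_one_div]
  rw [h]
  unfold S'
  exact HasDerivAt.fun_sum fun j _ => (der_inv (k + j) a ha).const_mul _

theorem S_succ (n k : ℕ) (r a : ℝ) (ha : 0 < a) :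
    S n (k + 1) r a = n / a * S n k r a - 2 * S' n k r a - r ^ 2 / a ^ 2 * S n k r a := by
  have hne := ha.ne'
  have h1 : n / a * S n k r a - 2 * S' n k r a =
      ∑ j ∈ Finset.range (k + 1 + 1),
        (n + 2 * k + 2 * j) * (tT n k j : ℝ) * r ^ (2 * j) / a ^ (k + 1 + j) := by
    rw [Finset.sum_range_succ _ (k + 1), tT_top]
    unfold S S'
    rw [Finset.mul_sum, Finset.mul_sum, ← Finset.sum_sub_distrib]
    rw [mul_zero, zero_mul, zero_div, add_zero]
    refine Finset.sum_congr rfl fun j _ => ?_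
    have e1 : a ^ (k + 1 + j) = a ^ (k + j) * a := by
      rw [← pow_succ]; congr 1; omega
    rw [e1, pow_succ]
    push_cast
    field_simp
    ring
  have h2 : r ^ 2 / a ^ 2 * S n k r a =
      ∑ j ∈ Finset.range (k + 1), (tT n k j : ℝ) * r ^ (2 * (j + 1)) / a ^ (k + 1 + (j + 1)) := by
    unfold S
    rw [Finset.mul_sum]
    refine Finset.sum_congr rfl fun j _ => ?_
    have e1 : a ^ (k + 1 + (j + 1)) = a ^ (k + j) * a ^ 2 := by
      rw [← pow_add]; congr 1; omega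
    have e2 : r ^ (2 * (j + 1)) = r ^ (2 * j) * r ^ 2 := by
      rw [← pow_add]; congr 1
    rw [e1, e2]
    field_simp
  rw [h1, h2]
  unfold S
  rw [Finset.sum_range_succ' _ (k + 1), Finset.sum_range_succ' _ (k + 1), tT_zero]
  have h3 : ∀ m ∈ Finset.range (k + 1),
      (tT n (k + 1) (m + 1) : ℝ) * r ^ (2 * (m + 1)) / a ^ (k + 1 + (m + 1)) =
      (n + 2 * k + 2 * ((m + 1 : ℕ) : ℝ)) * (tT n k (m + 1) : ℝ) * r ^ (2 * (m + 1)) /
          a ^ (k + 1 + (m + 1)) -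
        (tT n k m : ℝ) * r ^ (2 * (m + 1)) / a ^ (k + 1 + (m + 1)) := by
    intro m _
    rw [tT_succ]
    push_cast
    ring
  rw [Finset.sum_congr rfl h3, Finset.sum_sub_distrib]
  push_cast
  ring

theorem kdr : KdrStmt := by
  intro n k x a ha
  have hne := ha.ne'
  have hK : ∀ k : ℕ, KK n k x = fun t => (2 * Real.pi / t) ^ ((n : ℝ) / 2) * S n k ‖x‖ t *
      Real.exp (-‖x‖ ^ 2 / (2 * t)) := fun k => rfl
  have hg : HasDerivAt (fun t : ℝ => (2 * Real.pi / t) ^ ((n : ℝ) / 2))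
      (-(n / 2) / a * (2 * Real.pi / a) ^ ((n : ℝ) / 2)) a := by
    have h0 : HasDerivAt (fun t : ℝ => 2 * Real.pi / t) (-(2 * Real.pi) / a ^ 2) a := by
      have h := (der_inv 1 a ha).const_mul (2 * Real.pi)
      have e : (fun t : ℝ => 2 * Real.pi * (1 / t ^ 1)) = fun t : ℝ => 2 * Real.pi / t := by
        funext t
        rw [pow_one, mul_one_div]
      rw [e] at h
      have e2 : 2 * Real.pi * (-((1 : ℕ) : ℝ) / a ^ (1 + 1)) = -(2 * Real.pi) / a ^ 2 := by
        push_cast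
        ring
      rw [e2] at h
      exact h
    have hpos : 0 < 2 * Real.pi / a := div_pos Real.two_pi_pos ha
    have h1 := h0.rpow_const (p := (n : ℝ) / 2) (Or.inl hpos.ne')
    have e3 : -(2 * Real.pi) / a ^ 2 * ((n : ℝ) / 2) * (2 * Real.pi / a) ^ ((n : ℝ) / 2 - 1) =
        -(n / 2) / a * (2 * Real.pi / a) ^ ((n : ℝ) / 2) := by
      rw [Real.rpow_sub_one hpos.ne']
      have hpi := Real.pi_ne_zero
      field_simp
    rw [e3] at h1
    exact h1
  have he : HasDerivAt (fun t : ℝ => Real.exp (-‖x‖ ^ 2 / (2 * t)))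
      (‖x‖ ^ 2 / (2 * a ^ 2) * Real.exp (-‖x‖ ^ 2 / (2 * a))) a := by
    have h := (der_inv 1 a ha).const_mul (-‖x‖ ^ 2 / 2)
    have e : (fun t : ℝ => -‖x‖ ^ 2 / 2 * (1 / t ^ 1)) = fun t : ℝ => -‖x‖ ^ 2 / (2 * t) := by
      funext t
      rw [pow_one, mul_one_div, div_div]
    rw [e] at h
    have h1 := h.exp
    have e2 : Real.exp (-‖x‖ ^ 2 / (2 * a)) * (-‖x‖ ^ 2 / 2 * (-((1 : ℕ) : ℝ) / a ^ (1 + 1))) =
        ‖x‖ ^ 2 / (2 * a ^ 2) * Real.exp (-‖x‖ ^ 2 / (2 * a)) := by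
      push_cast
      field_simp
    rw [e2] at h1
    exact h1
  have hd := (hg.mul (der_S n k ‖x‖ a ha)).mul he
  rw [hK k]
  have hv : -(KK n (k + 1) x a) / 2 =
      (-(n / 2) / a * (2 * Real.pi / a) ^ ((n : ℝ) / 2) * S n k ‖x‖ a +
        (2 * Real.pi / a) ^ ((n : ℝ) / 2) * S' n k ‖x‖ a) *
          Real.exp (-‖x‖ ^ 2 / (2 * a)) +
        (2 * Real.pi / a) ^ ((n : ℝ) / 2) * S n k ‖x‖ a *
          (‖x‖ ^ 2 / (2 * a ^ 2) * Real.exp (-‖x‖ ^ 2 / (2 * a))) := by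
    rw [hK (k + 1)]
    show -((2 * Real.pi / a) ^ ((n : ℝ) / 2) * S n (k + 1) ‖x‖ a *
      Real.exp (-‖x‖ ^ 2 / (2 * a))) / 2 = _
    rw [S_succ n k ‖x‖ a ha]
    field_simp
    ring
  rw [hv]
  exact hd

end Pool.Agent.LPC.H6
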